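import Pool.Agent.H45.UZ.TarP

/-!
# MP_f6fd33_lc: PLW, the face relation of worlds
-/

set_option linter.unusedVariables false

open Ordinal Order Set
open scoped ZFSet

namespace SE.UZ

open SF

theorem plw_N {D : Cx} {κ : V} (hA : Amb D κ) {b : BS} (hb : b.Ok D κ) {B : V} (hB : B ∈ b.Ob) :
    D.N (b.u B) ∧ Cld D.L (b.u B) ∧ Tr (b.u B) :=
  ⟨hA.ok.zfc.trans _ hA.ok.hN _ (hb.cs B hB).h, (hb.cs B hB).c,
    fun i hi => ((hb.cs B hB).c i hi).2⟩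

theorem pf_PLW (hPHA : T_PHA) (hQRN : T_QRN) (hBL : T_BL) : T_PLW := by
  intro D κ hA b hb
  have hok := hA.ok
  refine ⟨?_, ?_, ?_, ?_, ?_⟩
  · intro σ B h hB
    exact ⟨hb.rfl B hB, fun G _ X _ y e => Iff.rfl⟩
  · intro σ B0 h0 B1 h1 B2 h2 σ1 σ2 hB0 H0 H1 L1 L2
    have hle := hb.trn _ _ _ L1.le L2.le
    obtain ⟨-, hB1, s01⟩ := hb.leO _ _ L1.le
    obtain ⟨-, hB2, s12⟩ := hb.leO _ _ L2.le
    obtain ⟨n0, c0, t0⟩ := plw_N hA hb hB0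
    obtain ⟨n1, c1, t1⟩ := plw_N hA hb hB1
    obtain ⟨n2, c2, t2⟩ := plw_N hA hb hB2
    have s02 : b.u B0 ⊆ b.u B2 := fun x hx => s12 (s01 hx)
    refine ⟨hle, ?_⟩
    intro G hG X hX y e
    obtain ⟨g1, -, -, -, -, -, r1⟩ := (hBL D hok _ G n2 c2 hG).2 (b.u B1) n1 s12 t1
    have r01 : gs (gs G (b.u B1)) (b.u B0) = gs G (b.u B0) := r1 _ s01
    have hX1 : RR D (b.u B0) (gs G (b.u B1)) X := by
      unfold RR at hX ⊢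
      rw [r01]
      exact hX
    have hX2 : RR D (b.u B1) G X :=
      (hQRN D hok _ G _ n2 c2 hG n0 s02 t0).2.2.2.2.2.2.2.1 _ n1 s01 s12 t1 X hX
    have e1 := L1.e _ g1 X hX1 y e
    have e2 := L2.e G hG X hX2 y e
    have a1 := (((hPHA D hok _ _ h0 σ1 n0 c0 n2 c2 s02 H0).1 G hG).1 X y e).1
    have a2 := (((hPHA D hok _ _ h0 σ1 n0 c0 n1 c1 s01 H0).1 _ g1).1 X y e).1
    have a3 := (((hPHA D hok _ _ h1 σ2 n1 c1 n2 c2 s12 H1).1 G hG).1 X y e).1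
    rw [r01] at a2
    rw [a1, ← a2, e1, ← a3, e2]
  · intro σ e B0 h0 B1 h1 he L
    refine ⟨L.le, fun G hG X hX y d => ?_⟩
    have := L.e G hG X hX y d
    constructor
    · rintro ⟨u, v⟩
      exact ⟨(this.1 ⟨u, lt_of_lt_of_le v he⟩).1, v⟩
    · rintro ⟨u, v⟩
      exact ⟨(this.2 ⟨u, lt_of_lt_of_le v he⟩).1, v⟩
  · intro σ1 σ2 e d d' B0 h0 B1 h1 H0 H1 hd hd'
    have key : ∀ hle : b.Le B0 B1, ∀ G X y f, (Ent (hr h0 d) G X y f ∧ f < e ↔ Ent h0 G X y f ∧ f < e) ∧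
        (Ent (hr h1 d') G X y f ∧ f < e ↔ Ent h1 G X y f ∧ f < e) := by
      intro hle G X y f
      obtain ⟨hB0, hB1, s01⟩ := hb.leO _ _ hle
      obtain ⟨n0, c0, t0⟩ := plw_N hA hb hB0
      obtain ⟨n1, c1, t1⟩ := plw_N hA hb hB1
      have q0 := ((hPHA D hok _ _ h0 σ1 n0 c0 n1 c1 s01 H0).2.1 d).2.2.2.2 G X y f
      have q1 := ((hPHA D hok _ _ h1 σ2 n1 c1 n1 c1 (fun x hx => hx) H1).2.1 d').2.2.2.2 G X y f
      rw [q0, q1]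
      refine ⟨⟨fun ⟨⟨u, _⟩, w⟩ => ⟨u, w⟩, fun ⟨u, w⟩ => ⟨⟨u, lt_of_lt_of_le w hd⟩, w⟩⟩,
        ⟨fun ⟨⟨u, _⟩, w⟩ => ⟨u, w⟩, fun ⟨u, w⟩ => ⟨⟨u, lt_of_lt_of_le w hd'⟩, w⟩⟩⟩
    constructor
    · intro L
      refine ⟨L.le, fun G hG X hX y f => ?_⟩
      have := L.e G hG X hX y f
      rw [(key L.le G X y f).1, (key L.le G X y f).2] at this
      exact this
    · intro L
      refine ⟨L.le, fun G hG X hX y f => ?_⟩
      rw [(key L.le G X y f).1, (key L.le G X y f).2]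
      exact L.e G hG X hX y f
  · intro σ1 σ2 e B0 h0 B1 h1 H0 H1 L G hG X hX d hd
    obtain ⟨hB0, hB1, s01⟩ := hb.leO _ _ L.le
    obtain ⟨n0, c0, t0⟩ := plw_N hA hb hB0
    obtain ⟨n1, c1, t1⟩ := plw_N hA hb hB1
    have q0 := ((hPHA D hok _ _ h0 σ1 n0 c0 n1 c1 s01 H0).2.1 d).2.2.2.2
    have q1 := ((hPHA D hok _ _ h1 σ2 n1 c1 n1 c1 (fun x hx => hx) H1).2.1 d).2.2.2.2
    unfold Dcc
    constructor
    · rintro ⟨y, f, hf⟩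
      obtain ⟨u, w⟩ := (q0 G X y f).1 hf
      exact ⟨y, f, (q1 G X y f).2 ⟨((L.e G hG X hX y f).1 ⟨u, lt_of_lt_of_le w hd⟩).1, w⟩⟩
    · rintro ⟨y, f, hf⟩
      obtain ⟨u, w⟩ := (q1 G X y f).1 hf
      exact ⟨y, f, (q0 G X y f).2 ⟨((L.e G hG X hX y f).2 ⟨u, lt_of_lt_of_le w hd⟩).1, w⟩⟩

end SE.UZ
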