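import Pool.Agent.H38.UZ.TarZ

/-!
# MP_f6fd33_lc: ZR, the ordinals less than `κ` and the stages
-/

set_option linter.unusedVariables false
set_option linter.deprecated false

open Ordinal Order Set
open scoped ZFSet

namespace SE.UZ

open SF

theorem zr_ins {M : V → Prop} (h : ZFm M) {x y : V} (hx : M x) (hy : M y) : M (insert y x) := by
  have h1 : M {y, y} := h.pair _ _ hy hy
  have h2 : M {x, {y, y}} := h.pair _ _ hx h1
  have h3 := h.union _ h2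
  have h4 : (⋃₀ ({x, {y, y}} : V) : ZFSet) = insert y x := by
    ext z
    simp only [ZFSet.mem_sUnion, ZFSet.mem_insert_iff, ZFSet.mem_singleton]
    constructor
    · rintro ⟨w, rfl | rfl, hz⟩
      · exact Or.inr hz
      · simp only [ZFSet.mem_insert_iff, ZFSet.mem_singleton, or_self] at hz
        exact Or.inl hz
    · rintro (rfl | hz)
      · exact ⟨_, Or.inr rfl, by simp⟩
      · exact ⟨x, Or.inl rfl, hz⟩
  rw [h4] at h3
  exact h3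

theorem pf_ZR (hRH : T_RH) (hBJ : T_BJ) : T_ZR := by
  intro D κ b hA hb
  obtain ⟨r1, r2, r3, r4, r5, r6⟩ := hRH D κ b hA hb
  obtain ⟨b1, b2, b3, -⟩ := hBJ D hA.ok
  obtain ⟨K, hK⟩ := hA.ord
  have hm : ∀ ξ ∈ κ, ∃ a < K, ξ = a.toZFSet := by
    intro ξ hξ
    rw [hK, mem_toZFSet_iff] at hξ
    obtain ⟨a, ha, e⟩ := hξ
    exact ⟨a, ha, e.symm⟩
  have hH : ∀ ξ ∈ κ, ξ ∈ D.H := fun ξ hξ => b2 κ hA.kH hξ
  have htr : ∀ ξ ∈ κ, ∀ η ∈ ξ, η ∈ κ := by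
    intro ξ hξ η hη
    obtain ⟨a, ha, rfl⟩ := hm ξ hξ
    rw [mem_toZFSet_iff] at hη
    obtain ⟨c, hc, rfl⟩ := hη
    rw [hK, toZFSet_mem_toZFSet_iff]
    exact hc.trans ha
  have hin : ∀ ξ ∈ κ, (succ (b.cn D (b.Wd D) (b.rho D ξ))).toZFSet = insert ξ ξ := by
    intro ξ hξ
    rw [toZFSet_succ, (r1 ξ hξ).2.1]
  refine ⟨htr, ?_, ?_, ?_, ?_, ?_, r3, ?_⟩
  · intro ξ hξ
    exact ⟨hH ξ hξ, b3 _ (hH ξ hξ), hA.suc ξ hξ⟩
  · intro ξ hξ η hη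
    obtain ⟨a, ha, rfl⟩ := hm ξ hξ
    obtain ⟨c, hc, rfl⟩ := hm η hη
    rcases lt_trichotomy a c with h | h | h
    · exact Or.inl (toZFSet_mem_toZFSet_iff.2 h)
    · exact Or.inr (Or.inl (by rw [h]))
    · exact Or.inr (Or.inr (toZFSet_mem_toZFSet_iff.2 h))
  · intro ξ hξ η hη
    have q1 := r2 ξ hξ η hη
    have q2 := r2 η hη ξ hξ
    obtain ⟨a, ha, rfl⟩ := hm ξ hξ
    obtain ⟨c, hc, rfl⟩ := hm η hη
    have e1 : (a.toZFSet = c.toZFSet) ↔ a = c :=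
      ⟨fun h => toZFSet_injective h, fun h => by rw [h]⟩
    refine ⟨?_, ?_, ?_, ?_, ?_, q1, ?_⟩
    · rw [toZFSet_subset_toZFSet_iff, toZFSet_mem_toZFSet_iff, e1, le_iff_lt_or_eq]
    · rw [ZFSet.mem_insert_iff, toZFSet_subset_toZFSet_iff, toZFSet_mem_toZFSet_iff, e1,
        le_iff_eq_or_lt]
    · rw [← toZFSet_succ, toZFSet_subset_toZFSet_iff, toZFSet_mem_toZFSet_iff, succ_le_iff]
    · rw [toZFSet_mem_toZFSet_iff, toZFSet_mem_toZFSet_iff]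
      exact fun h => not_lt_of_gt h
    · rw [toZFSet_subset_toZFSet_iff, ← not_lt, ← not_lt, ← q2, toZFSet_mem_toZFSet_iff]
    · rw [succ_le_iff]
      exact q1
  · intro ξ hξ
    obtain ⟨a, ha, rfl⟩ := hm ξ hξ
    by_cases h : ∃ c, a = succ c
    · obtain ⟨c, rfl⟩ := h
      left
      exact ⟨c.toZFSet, toZFSet_mem_toZFSet_iff.2 (lt_succ c), toZFSet_succ c⟩
    · right
      intro η hη
      rw [mem_toZFSet_iff] at hη
      obtain ⟨c, hc, rfl⟩ := hη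
      rw [← toZFSet_succ, toZFSet_mem_toZFSet_iff]
      exact lt_of_le_of_ne (succ_le_of_lt hc) fun e => h ⟨c, e.symm⟩
  · intro ξ hξ
    obtain ⟨p1, p2, p3⟩ := r1 ξ hξ
    refine ⟨?_, p1, p3, ?_, ?_, hin ξ hξ⟩
    · obtain ⟨a, ha, rfl⟩ := hm ξ hξ
      rw [toZFSet_mem_toZFSet_iff]
      exact lt_irrefl a
    · rw [toZFSet_succ]
      exact zr_ins hA.ok.zfc.toZFCm.toZFm p3 p3
    · exact (r2 ξ hξ _ (hA.suc ξ hξ)).1 (ZFSet.mem_insert _ _)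
  · intro ξ hξ e τ he hlt hτ
    obtain ⟨ζ, hζ, rfl⟩ := r3 ξ hξ e he hlt
    refine ⟨ζ, hζ, rfl, ?_⟩
    rw [hin ζ (htr ξ hξ ζ hζ)] at hτ
    exact hτ

end SE.UZ
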